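import Pool.Agent.helper47.VD.SpecA1b

set_option autoImplicit false

open scoped ContDiff Topology InnerProductSpace ComplexConjugate ENNReal
open MeasureTheory Filter Set

namespace Pool.Agent.VD

open Pool.Agent.VQ (CH)

noncomputable section

variable {d : ℕ}

theorem AEBD_e (i : Fin d) : ‖(EuclideanSpace.single i 1 : V d)‖ = 1 := by simp

theorem AEBD_LH {h : V d → V d →L[ℝ] V d} (hh : ContDiff ℝ ∞ h) {b : V d → ℝ}
    (hb : ContDiff ℝ ∞ b) (x w : V d) :
    LHO h (fun y => b (y - x)) w = ∑ i : Fin d,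
      (fderiv ℝ b (w - x) (fderiv ℝ h w (EuclideanSpace.single i 1) (EuclideanSpace.single i 1)) +
        fderiv ℝ (fderiv ℝ b) (w - x) (EuclideanSpace.single i 1)
          (h w (EuclideanSpace.single i 1))) := by
  unfold LHO
  refine Finset.sum_congr rfl fun i _ => ?_
  have e1 : (fun y => fderiv ℝ (fun y => b (y - x)) y (h y (EuclideanSpace.single i 1))) =
      fun y => fderiv ℝ b (y - x) (h y (EuclideanSpace.single i 1)) := by
    funext y
    rw [fderiv_comp_sub]
  rw [e1]
  have hdb : ContDiff ℝ ∞ (fderiv ℝ b) := hb.fderiv_right (m := ∞) (by simp)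
  have h1 : HasFDerivAt (fun y => fderiv ℝ b (y - x)) (fderiv ℝ (fderiv ℝ b) (w - x)) w := by
    have ha : HasFDerivAt (fderiv ℝ b) (fderiv ℝ (fderiv ℝ b) (w - x)) (w - x) :=
      (hdb.differentiable (by simp) (w - x)).hasFDerivAt
    have hs : HasFDerivAt (fun y : V d => y - x) (ContinuousLinearMap.id ℝ (V d)) w :=
      (hasFDerivAt_id w).sub_const x
    have := ha.comp w hs
    rwa [ContinuousLinearMap.comp_id] at this
  have h2 : HasFDerivAt (fun y => h y (EuclideanSpace.single i 1))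
      ((fderiv ℝ h w).flip (EuclideanSpace.single i 1)) w := by
    have ha : HasFDerivAt h (fderiv ℝ h w) w := (hh.differentiable (by simp) w).hasFDerivAt
    have := ha.clm_apply (hasFDerivAt_const (EuclideanSpace.single i 1 : V d) w)
    simpa using this
  have h3 := h1.clm_apply h2
  rw [h3.fderiv]
  simp [ContinuousLinearMap.add_apply, ContinuousLinearMap.flip_apply]

theorem AEBD_proof (h1 : AHLD_stmt) (h2 : ABRG_stmt) (h3 : ABRD_stmt) : AEBD_stmt := by
  intro d Γ _ _ K k B r0 ch ζ hK hch hζ hζ8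
  obtain ⟨C1, hC1, hA⟩ := h1 d Γ K k B (r0 + 1) 1
  obtain ⟨R1, hR1, hG⟩ := h2 d ch ζ hch hζ hζ8
  obtain ⟨R2, hR2, hD⟩ := h3 d ch ζ hch hζ hζ8
  have hd0 : (0 : ℝ) ≤ d := Nat.cast_nonneg d
  have hC10 : 0 ≤ C1 := by linarith
  refine ⟨2 * (d + 1) * C1, max R1 R2, ?_, hR1.trans (le_max_left _ _), ?_⟩
  · nlinarith
  intro R G hR hCls x w hx
  have hR1' : R1 ≤ R := (le_max_left _ _).trans hR
  have hR2' : R2 ≤ R := (le_max_right _ _).trans hR
  have hRone : 1 ≤ R := hR1.trans hR1'
  obtain ⟨_, _, hIGs, _, hbd⟩ := hA G hK hCls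
  obtain ⟨hb0s, _, _, hρ, _⟩ := hD R hR2'
  obtain ⟨g1, g2, g3⟩ := hG R hR1' (w - x)
  have hgk : 0 ≤ gk ζ R (w - x) := (abs_nonneg _).trans g1
  have p1 : (1 : ℝ) ≤ R ^ (1 / 2 + 2 * ζ) := Real.one_le_rpow hRone (by linarith)
  have p2 : R ^ (1 / 2 + 2 * ζ) ≤ R ^ (1 + 3 * ζ) :=
    Real.rpow_le_rpow_of_exponent_le hRone (by linarith)
  have p3 : 0 ≤ R ^ (-(1 / 2) + ζ) := Real.rpow_nonneg (by linarith) _
  have hsub : fderiv ℝ (fun y => b0 ch ζ R (y - x)) w = fderiv ℝ (b0 ch ζ R : V d → ℝ) (w - x) := by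
    rw [fderiv_comp_sub (f := (b0 ch ζ R : V d → ℝ))]
  rw [AEBD_LH hIGs hb0s x w, hsub]
  by_cases hwx : ‖w - x‖ ≤ R ^ (-(1 / 2) + ζ)
  · -- near `x`
    have hw : ‖w‖ ≤ r0 + 1 := by
      have := norm_add_le x (w - x)
      rw [add_sub_cancel] at this
      linarith
    have hx' : ‖x‖ ≤ r0 + 1 := by linarith
    obtain ⟨_, hit, _⟩ := hbd w hw
    have b0' := hit 0 (by norm_num)
    have b1' := hit 1 le_rfl
    have hVG : ‖VG G w‖ ≤ C1 := by
      have := b0'.2.2.1
      rwa [norm_iteratedFDeriv_zero] at this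
    have hIG : ‖IG G w‖ ≤ C1 := by
      have := b0'.2.2.2
      rwa [norm_iteratedFDeriv_zero] at this
    have hDI : ‖fderiv ℝ (IG G) w‖ ≤ C1 := by
      have := b1'.2.2.2
      rwa [norm_iteratedFDeriv_one] at this
    have hIe : ∀ i : Fin d, ‖IG G w (EuclideanSpace.single i 1)‖ ≤ C1 := by
      intro i
      have := (IG G w).le_opNorm (EuclideanSpace.single i 1)
      rw [AEBD_e, mul_one] at this
      exact this.trans hIG
    have hDe : ∀ i : Fin d,
        ‖fderiv ℝ (IG G) w (EuclideanSpace.single i 1) (EuclideanSpace.single i 1)‖ ≤ C1 := by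
      intro i
      have a1 := (fderiv ℝ (IG G) w (EuclideanSpace.single i 1)).le_opNorm
        (EuclideanSpace.single i 1)
      have a2 := (fderiv ℝ (IG G) w).le_opNorm (EuclideanSpace.single i 1)
      rw [AEBD_e, mul_one] at a1 a2
      exact a1.trans (a2.trans hDI)
    refine ⟨?_, ?_, ?_, ?_⟩
    · calc |∑ i : Fin d, (fderiv ℝ (b0 ch ζ R : V d → ℝ) (w - x)
            (fderiv ℝ (IG G) w (EuclideanSpace.single i 1) (EuclideanSpace.single i 1)) +
            fderiv ℝ (fderiv ℝ (b0 ch ζ R : V d → ℝ)) (w - x) (EuclideanSpace.single i 1)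
              (IG G w (EuclideanSpace.single i 1)))|
          ≤ ∑ i : Fin d, 2 * C1 * R ^ (1 + 3 * ζ) * gk ζ R (w - x) := by
            refine (Finset.abs_sum_le_sum_abs _ _).trans (Finset.sum_le_sum fun i _ => ?_)
            have a1 : |fderiv ℝ (b0 ch ζ R : V d → ℝ) (w - x)
                (fderiv ℝ (IG G) w (EuclideanSpace.single i 1) (EuclideanSpace.single i 1))| ≤
                R ^ (1 + 3 * ζ) * gk ζ R (w - x) * C1 := by
              have := (fderiv ℝ (b0 ch ζ R : V d → ℝ) (w - x)).le_opNorm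
                (fderiv ℝ (IG G) w (EuclideanSpace.single i 1) (EuclideanSpace.single i 1))
              rw [Real.norm_eq_abs] at this
              refine this.trans (mul_le_mul (g2.trans ?_) (hDe i) (norm_nonneg _) ?_)
              · exact mul_le_mul_of_nonneg_right p2 hgk
              · exact mul_nonneg (Real.rpow_nonneg (by linarith) _) hgk
            have a2 : |fderiv ℝ (fderiv ℝ (b0 ch ζ R : V d → ℝ)) (w - x)
                (EuclideanSpace.single i 1) (IG G w (EuclideanSpace.single i 1))| ≤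
                R ^ (1 + 3 * ζ) * gk ζ R (w - x) * C1 := by
              have t1 := (fderiv ℝ (fderiv ℝ (b0 ch ζ R : V d → ℝ)) (w - x)
                (EuclideanSpace.single i 1)).le_opNorm (IG G w (EuclideanSpace.single i 1))
              have t2 := (fderiv ℝ (fderiv ℝ (b0 ch ζ R : V d → ℝ)) (w - x)).le_opNorm
                (EuclideanSpace.single i 1)
              rw [AEBD_e, mul_one] at t2
              rw [Real.norm_eq_abs] at t1
              refine t1.trans (mul_le_mul (t2.trans g3) (hIe i) (norm_nonneg _) ?_)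
              exact mul_nonneg (Real.rpow_nonneg (by linarith) _) hgk
            calc _ ≤ _ := abs_add_le _ _
              _ ≤ R ^ (1 + 3 * ζ) * gk ζ R (w - x) * C1 + R ^ (1 + 3 * ζ) * gk ζ R (w - x) * C1 :=
                add_le_add a1 a2
              _ = 2 * C1 * R ^ (1 + 3 * ζ) * gk ζ R (w - x) := by ring
        _ = d * (2 * C1 * R ^ (1 + 3 * ζ) * gk ζ R (w - x)) := by simp
        _ ≤ 2 * (d + 1) * C1 * R ^ (1 + 3 * ζ) * gk ζ R (w - x) := by
            have : 0 ≤ 2 * C1 * R ^ (1 + 3 * ζ) * gk ζ R (w - x) :=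
              mul_nonneg (mul_nonneg (by linarith) (Real.rpow_nonneg (by linarith) _)) hgk
            nlinarith
    · calc |b0 ch ζ R (w - x)| * ‖VG G w‖ ≤ gk ζ R (w - x) * C1 :=
            mul_le_mul g1 hVG (norm_nonneg _) hgk
        _ ≤ 2 * (d + 1) * C1 * gk ζ R (w - x) := by
            have : 0 ≤ gk ζ R (w - x) * C1 := mul_nonneg hgk hC10
            nlinarith
    · intro i
      have a1 : |fderiv ℝ (b0 ch ζ R : V d → ℝ) (w - x) (IG G w (EuclideanSpace.single i 1))| ≤
          R ^ (1 / 2 + 2 * ζ) * gk ζ R (w - x) * C1 := by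
        have := (fderiv ℝ (b0 ch ζ R : V d → ℝ) (w - x)).le_opNorm
          (IG G w (EuclideanSpace.single i 1))
        rw [Real.norm_eq_abs] at this
        refine this.trans (mul_le_mul g2 (hIe i) (norm_nonneg _) ?_)
        exact mul_nonneg (by linarith) hgk
      have a2 : |dvh (IG G) (EuclideanSpace.single i 1) w| ≤ d * C1 := by
        unfold dvh
        refine (Finset.abs_sum_le_sum_abs _ _).trans ?_
        calc ∑ j : Fin d, |⟪(EuclideanSpace.single i 1 : V d), fderiv ℝ (IG G) w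
              (EuclideanSpace.single j 1) (EuclideanSpace.single j 1)⟫_ℝ| ≤ ∑ j : Fin d, C1 := by
              refine Finset.sum_le_sum fun j _ => ?_
              refine (abs_real_inner_le_norm _ _).trans ?_
              rw [AEBD_e, one_mul]
              exact hDe j
          _ = d * C1 := by simp
      have a3 : |b0 ch ζ R (w - x) * dvh (IG G) (EuclideanSpace.single i 1) w| ≤
          R ^ (1 / 2 + 2 * ζ) * gk ζ R (w - x) * (d * C1) := by
        rw [abs_mul]
        refine mul_le_mul (g1.trans ?_) a2 (abs_nonneg _) (mul_nonneg (by linarith) hgk)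
        exact le_mul_of_one_le_left hgk p1
      calc |2 * fderiv ℝ (b0 ch ζ R : V d → ℝ) (w - x) (IG G w (EuclideanSpace.single i 1)) +
            b0 ch ζ R (w - x) * dvh (IG G) (EuclideanSpace.single i 1) w|
          ≤ |2 * fderiv ℝ (b0 ch ζ R : V d → ℝ) (w - x) (IG G w (EuclideanSpace.single i 1))| +
            |b0 ch ζ R (w - x) * dvh (IG G) (EuclideanSpace.single i 1) w| := abs_add_le _ _
        _ ≤ 2 * (R ^ (1 / 2 + 2 * ζ) * gk ζ R (w - x) * C1) +
            R ^ (1 / 2 + 2 * ζ) * gk ζ R (w - x) * (d * C1) := by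
            refine add_le_add ?_ a3
            rw [abs_mul, abs_of_pos (by norm_num : (0 : ℝ) < 2)]
            exact mul_le_mul_of_nonneg_left a1 (by norm_num)
        _ ≤ 2 * (d + 1) * C1 * R ^ (1 / 2 + 2 * ζ) * gk ζ R (w - x) := by
            have : 0 ≤ d * (R ^ (1 / 2 + 2 * ζ) * gk ζ R (w - x) * C1) :=
              mul_nonneg hd0 (mul_nonneg (mul_nonneg (by linarith) hgk) hC10)
            nlinarith
    · intro i j
      have hmv : ‖IG G x - IG G w‖ ≤ C1 * ‖x - w‖ := by
        refine Convex.norm_image_sub_le_of_norm_fderiv_le (𝕜 := ℝ) (s := Metric.closedBall 0 (r0 + 1))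
          (fun y _ => hIGs.differentiable (by simp) y) (fun y hy => ?_) (convex_closedBall _ _)
          (mem_closedBall_zero_iff.2 hw) (mem_closedBall_zero_iff.2 hx')
        have hy' : ‖y‖ ≤ r0 + 1 := mem_closedBall_zero_iff.1 hy
        have := ((hbd y hy').2.1 1 le_rfl).2.2.2
        rwa [norm_iteratedFDeriv_one] at this
      have hmv' : ‖IG G x - IG G w‖ ≤ C1 * R ^ (-(1 / 2) + ζ) := by
        refine hmv.trans (mul_le_mul_of_nonneg_left ?_ hC10)
        rw [norm_sub_rev]
        exact hwx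
      have a1 : |⟪(IG G x - IG G w) (EuclideanSpace.single i 1),
          (EuclideanSpace.single j 1 : V d)⟫_ℝ| ≤ C1 * R ^ (-(1 / 2) + ζ) := by
        refine (abs_real_inner_le_norm _ _).trans ?_
        rw [AEBD_e, mul_one]
        have := (IG G x - IG G w).le_opNorm (EuclideanSpace.single i 1)
        rw [AEBD_e, mul_one] at this
        exact this.trans hmv'
      rw [abs_mul]
      calc |b0 ch ζ R (w - x)| * |⟪(IG G x - IG G w) (EuclideanSpace.single i 1),
            (EuclideanSpace.single j 1 : V d)⟫_ℝ| ≤ gk ζ R (w - x) * (C1 * R ^ (-(1 / 2) + ζ)) :=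
            mul_le_mul g1 a1 (abs_nonneg _) hgk
        _ ≤ 2 * (d + 1) * C1 * R ^ (-(1 / 2) + ζ) * gk ζ R (w - x) := by
            have : 0 ≤ gk ζ R (w - x) * (C1 * R ^ (-(1 / 2) + ζ)) :=
              mul_nonneg hgk (mul_nonneg hC10 p3)
            nlinarith
  · -- away from `x`
    have hz : gk ζ R (w - x) = 0 := by
      unfold gk
      rw [indicator_of_notMem]
      rw [mem_closedBall_zero_iff]
      exact hwx
    rw [hz] at g1 g2 g3
    rw [mul_zero] at g2 g3
    have z1 : b0 ch ζ R (w - x) = 0 := abs_nonpos_iff.1 g1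
    have z2 : fderiv ℝ (b0 ch ζ R : V d → ℝ) (w - x) = 0 := norm_le_zero_iff.1 g2
    have z3 : fderiv ℝ (fderiv ℝ (b0 ch ζ R : V d → ℝ)) (w - x) = 0 := by
      have h := (norm_le_zero_iff (a := fderiv ℝ (fderiv ℝ (b0 ch ζ R : V d → ℝ)) (w - x))).1 g3
      exact h
    rw [hz, z1, z2, z3]
    simp

end

end Pool.Agent.VD
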