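import Pool.Agent.helper80.VD.SpecD

set_option autoImplicit false

open scoped ContDiff Topology InnerProductSpace
open MeasureTheory Filter Set

namespace Pool.Agent.VD

noncomputable section

theorem DGR_nat {d : ℕ} {K : Set (V d)} (hK : IsCompact K) : ∃ m : ℕ, ∀ x ∈ K, ‖x‖ ≤ m := by
  obtain ⟨R, hR⟩ := hK.isBounded.exists_norm_le
  obtain ⟨m, hm⟩ := exists_nat_ge R
  exact ⟨m, fun x hx => (hR x hx).trans hm⟩

theorem DGR_emb (hGNR : GNR_stmt) (hGHL : GHL_stmt) {d : ℕ} {Γ : Type} [Group Γ]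
    [MulAction Γ (V d)] {K : Set (V d)} (k : ℝ) (B : ℕ → ℕ → ℝ) {χ : V d → ℝ}
    (hK : FdK Γ K) (hχ : Ctf K χ) :
    ∃ C2 : ℝ, 0 ≤ C2 ∧ ∀ G : V d → V d →L[ℝ] V d, Cls Γ K k B G → ∀ p : P d,
      nrm G p ≤ 3 / 2 → ∀ γ : Γ, ‖embP χ (lft γ p)‖ ≤ C2 := by
  obtain ⟨m, hm⟩ := DGR_nat (show IsCompact (tsupport χ) from hχ.supp)
  obtain ⟨C, hC1, hC⟩ := hGNR d B m
  have hm0 : (0 : ℝ) ≤ m := Nat.cast_nonneg m
  refine ⟨m + 3 / 2 * C + 3, by linarith, fun G hG p hp γ => ?_⟩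
  have hpos : (0 : ℝ) ≤ m + 3 / 2 * C + 3 := by linarith
  obtain ⟨h1, _⟩ := hGHL d Γ G hG.met hK.smooth hG.isom
  have hn : nrm G (lft γ p) = nrm G p := (h1 γ p).2.1
  set q : P d := lft γ p with hq
  by_cases h : χ q.1 = 0
  · have : embP χ q = 0 := by
      unfold embP
      rw [h]
      simp
    rw [this, norm_zero]
    exact hpos
  · have hmem : q.1 ∈ tsupport χ := subset_tsupport _ (Function.mem_support.2 h)
    have hq1 := hm _ hmem
    have hq2 := (hC G hG.met hG.lo hG.bd q hq1).1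
    rw [hn] at hq2
    have hq2' : ‖q.2‖ ≤ 3 / 2 * C := hq2.trans (by nlinarith)
    have hb := hχ.bd q.1
    have habs : |χ q.1| ≤ 1 := by rw [abs_of_nonneg hb.1]; exact hb.2
    unfold embP
    refine norm_prod_le_iff.2 ⟨?_, norm_prod_le_iff.2 ⟨?_, ?_⟩⟩
    · simp only [norm_smul, Real.norm_eq_abs]
      calc |χ q.1| * ‖q.1‖ ≤ 1 * ‖q.1‖ := mul_le_mul_of_nonneg_right habs (norm_nonneg _)
        _ ≤ m + 3 / 2 * C + 3 := by linarith
    · simp only [norm_smul, Real.norm_eq_abs]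
      calc |χ q.1| * ‖q.2‖ ≤ 1 * ‖q.2‖ := mul_le_mul_of_nonneg_right habs (norm_nonneg _)
        _ ≤ m + 3 / 2 * C + 3 := by linarith
    · simp only [Real.norm_eq_abs]
      rw [abs_mul, abs_of_nonneg (by norm_num : (0 : ℝ) ≤ 3)]
      linarith

theorem DGR_pow {C : ℝ} (hC : 1 ≤ C) {t : ℝ} {n : ℕ} (hn : (n : ℝ) ≤ |t| + 1) :
    C ^ n ≤ C * Real.exp (C * |t|) := by
  have hC0 : 0 < C := lt_of_lt_of_le one_pos hC
  have hl0 : 0 ≤ Real.log C := Real.log_nonneg hC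
  have hl1 : Real.log C ≤ C := (Real.log_le_sub_one_of_pos hC0).trans (by linarith)
  have e1 : C ^ n = Real.exp (n * Real.log C) := by
    rw [Real.exp_nat_mul, Real.exp_log hC0]
  have e2 : C * Real.exp (C * |t|) = Real.exp (Real.log C + C * |t|) := by
    rw [Real.exp_add, Real.exp_log hC0]
  rw [e1, e2]
  refine Real.exp_le_exp.2 ?_
  have h1 : (n : ℝ) * Real.log C ≤ (|t| + 1) * Real.log C := mul_le_mul_of_nonneg_right hn hl0
  have h2 : |t| * Real.log C ≤ |t| * C := mul_le_mul_of_nonneg_left hl1 (abs_nonneg t)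
  linarith

theorem DGR_proof (hGLF : GLF_stmt) (hDPP : DPP_stmt) (hDLL : DLL_stmt) (hGLP : GLP_stmt)
    (hGCF : GCF_stmt) (hGNR : GNR_stmt) (hGUN : GUN_stmt) (hGEQ : GEQ_stmt)
    (hGHL : GHL_stmt) : DGR_stmt := by
  intro d Γ _ _ K k B χ hK hχ
  obtain ⟨_, hd0, _, _, _, hdinv, _, _, hlow, hupp, hsup⟩ := hDPP d Γ K χ hK hχ
  obtain ⟨C2, hC20, hC2⟩ := DGR_emb hGNR hGHL k B hK hχ
  obtain ⟨mK, hmK⟩ := DGR_nat hK.compact
  obtain ⟨CN, hCN1, hCN⟩ := hGNR d B mK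
  obtain ⟨c, CL, hc, hCL1, hCL⟩ := hGLP d Γ K k B hK mK 1
  obtain ⟨m', hm', hcf⟩ := hGCF d Γ K k B hK (mK + 1) 1
  obtain ⟨CD, hCD1, hCD⟩ := hlow (CN * (3 / 2))
  obtain ⟨CU, hCU1, hCU⟩ := hupp m' m'
  set c0 : ℝ := min (1 / 2) (min c 1 / CD) with hc0
  have hCD0 : 0 < CD := lt_of_lt_of_le one_pos hCD1
  have hc0pos : 0 < c0 := lt_min (by norm_num) (div_pos (lt_min hc one_pos) hCD0)
  set C3 : ℝ := max (CU * CL * CD) (2 * C2 / c0) with hC3
  have hprod : 1 ≤ CU * CL * CD := by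
    have h1 : 1 ≤ CU * CL := by nlinarith
    nlinarith
  have hC31 : 1 ≤ C3 := hprod.trans (le_max_left _ _)
  set C : ℝ := max C3 (max (2 * C2) (CU * CL)) with hCdef
  have hC1 : 1 ≤ C := hC31.trans (le_max_left _ _)
  have hC3C : C3 ≤ C := le_max_left _ _
  have h2C2 : 2 * C2 ≤ C := (le_max_left _ _).trans (le_max_right _ _)
  have hULC : CU * CL ≤ C := (le_max_right _ _).trans (le_max_right _ _)
  refine ⟨C, hC1, fun G Φ hG hΦ => ?_⟩
  obtain ⟨_, _, hcons, _⟩ := hGUN d G Φ hG.met hΦ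
  have heq := hGEQ d Γ G Φ hG.met hK.smooth hG.isom hΦ
  obtain ⟨hhl, _⟩ := hGHL d Γ G hG.met hK.smooth hG.isom
  have hnl : ∀ (γ : Γ) (p : P d), nrm G (lft γ p) = nrm G p := fun γ p => (hhl γ p).2.1
  have hnf : ∀ (t : ℝ) (p : P d), nrm G (Φ t p) = nrm G p := fun t p => (hcons t p).2
  -- part 2
  have hpart2 : ∀ p q : P d, nrm G p ≤ 3 / 2 → nrm G q ≤ 3 / 2 → dP Γ χ p q ≤ 2 * C2 :=
    fun p q hp hq => hsup C2 p q hC20 fun γ => ⟨hC2 G hG p hp γ, hC2 G hG q hq γ⟩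
  -- bounds near `K`
  have hconf : ∀ (p : P d) (t : ℝ), ‖p.1‖ ≤ mK + 1 → nrm G p ≤ 3 / 2 → |t| ≤ 1 →
      ‖(Φ t p).1‖ ≤ m' ∧ ‖(Φ t p).2‖ ≤ m' := by
    intro p t hp hn ht
    refine hcf G Φ hG hΦ p t ?_ (by linarith) ht
    push_cast
    exact hp
  -- unit step
  have hunit : ∀ (p q : P d) (t : ℝ), nrm G p ≤ 3 / 2 → nrm G q ≤ 3 / 2 → |t| ≤ 1 →
      dP Γ χ (Φ t p) (Φ t q) ≤ C3 * dP Γ χ p q := by
    intro p0 q0 t hp0 hq0 ht
    obtain ⟨γ, hγ⟩ := hK.cover p0.1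
    set p : P d := lft γ p0 with hp
    set q : P d := lft γ q0 with hq
    have e1 : dP Γ χ (Φ t p0) (Φ t q0) = dP Γ χ (Φ t p) (Φ t q) := by
      rw [hp, hq, heq, heq, hdinv]
    have e2 : dP Γ χ p0 q0 = dP Γ χ p q := by rw [hp, hq, hdinv]
    rw [e1, e2]
    have hnp : nrm G p ≤ 3 / 2 := by rw [hp, hnl]; exact hp0
    have hnq : nrm G q ≤ 3 / 2 := by rw [hq, hnl]; exact hq0
    have hpK : p.1 ∈ K := hγ
    by_cases hsm : dP Γ χ p q ≤ c0
    · have hp1 : ‖p.1‖ ≤ mK := hmK _ hpK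
      have hp2 : ‖p.2‖ ≤ CN * (3 / 2) := by
        have := (hCN G hG.met hG.lo hG.bd p hp1).1
        exact this.trans (mul_le_mul_of_nonneg_left hnp (by linarith))
      have hpq := hCD p q hpK hp2 (hsm.trans (min_le_left _ _))
      have hpq' : CD * dP Γ χ p q ≤ min c 1 := by
        calc CD * dP Γ χ p q ≤ CD * (min c 1 / CD) :=
              mul_le_mul_of_nonneg_left (hsm.trans (min_le_right _ _)) hCD0.le
          _ = min c 1 := by field_simp
      have hqp : ‖q - p‖ ≤ CD * dP Γ χ p q := by rw [norm_sub_rev]; exact hpq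
      have hL := (hCL G Φ hG hΦ p q 0 t hp1 hnp (hqp.trans (hpq'.trans (min_le_left _ _))) ht
        (by simp)).1
      have hq1 : ‖q.1‖ ≤ mK + 1 := by
        have h1 : ‖q.1 - p.1‖ ≤ ‖q - p‖ := norm_fst_le (q - p)
        have h2 : ‖q.1‖ ≤ ‖p.1‖ + ‖q.1 - p.1‖ := by
          have := norm_add_le p.1 (q.1 - p.1)
          rwa [add_sub_cancel] at this
        have h3 := hqp.trans (hpq'.trans (min_le_right _ _))
        linarith
      have b1 := hconf p t (by linarith) hnp ht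
      have b2 := hconf q t hq1 hnq ht
      have hU := hCU (Φ t p) (Φ t q) b1.1 b2.1 b1.2 b2.2
      rw [norm_sub_rev] at hU
      have hCU0 : 0 ≤ CU := by linarith
      have hCL0 : 0 ≤ CL := by linarith
      calc dP Γ χ (Φ t p) (Φ t q) ≤ CU * ‖Φ t q - Φ t p‖ := hU
        _ ≤ CU * (CL * (CD * dP Γ χ p q)) :=
            mul_le_mul_of_nonneg_left (hL.trans (mul_le_mul_of_nonneg_left hqp hCL0)) hCU0
        _ = CU * CL * CD * dP Γ χ p q := by ring
        _ ≤ C3 * dP Γ χ p q := mul_le_mul_of_nonneg_right (le_max_left _ _) (hd0 _ _)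
    · have h1 := hpart2 (Φ t p) (Φ t q) (by rw [hnf]; exact hnp) (by rw [hnf]; exact hnq)
      have h2 : c0 ≤ dP Γ χ p q := (not_le.1 hsm).le
      calc dP Γ χ (Φ t p) (Φ t q) ≤ 2 * C2 := h1
        _ = 2 * C2 / c0 * c0 := by field_simp
        _ ≤ 2 * C2 / c0 * dP Γ χ p q := mul_le_mul_of_nonneg_left h2 (by positivity)
        _ ≤ C3 * dP Γ χ p q := mul_le_mul_of_nonneg_right (le_max_right _ _) (hd0 _ _)
  have hC30 : 0 ≤ C3 := by linarith
  -- iteration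
  have hiter : ∀ (p q : P d) (u : ℝ), nrm G p ≤ 3 / 2 → nrm G q ≤ 3 / 2 → |u| ≤ 1 → ∀ j : ℕ,
      dP Γ χ (Φ (j * u) p) (Φ (j * u) q) ≤ C3 ^ j * dP Γ χ p q := by
    intro p q u hp hq hu j
    induction j with
    | zero => simp [hΦ.zero]
    | succ j ih =>
      have e : ((j + 1 : ℕ) : ℝ) * u = u + j * u := by push_cast; ring
      rw [e, hΦ.add, hΦ.add]
      calc dP Γ χ (Φ u (Φ (j * u) p)) (Φ u (Φ (j * u) q))
          ≤ C3 * dP Γ χ (Φ (j * u) p) (Φ (j * u) q) :=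
            hunit _ _ u (by rw [hnf]; exact hp) (by rw [hnf]; exact hq) hu
        _ ≤ C3 * (C3 ^ j * dP Γ χ p q) := mul_le_mul_of_nonneg_left ih hC30
        _ = C3 ^ (j + 1) * dP Γ χ p q := by ring
  refine ⟨?_, ?_, ?_⟩
  · intro p q t hp hq
    set n : ℕ := ⌈|t|⌉₊ with hn
    have hn1 : |t| ≤ n := Nat.le_ceil _
    have hn2 : (n : ℝ) ≤ |t| + 1 := (Nat.ceil_lt_add_one (abs_nonneg t)).le
    have hu : |t / n| ≤ 1 := by
      rcases Nat.eq_zero_or_pos n with h0 | hpos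
      · rw [h0]; simp
      · have hnp : (0 : ℝ) < n := by exact_mod_cast hpos
        rw [abs_div, abs_of_pos hnp, div_le_one hnp]
        exact hn1
    have ht : (n : ℝ) * (t / n) = t := by
      rcases Nat.eq_zero_or_pos n with h0 | hpos
      · have : |t| ≤ 0 := by rw [h0] at hn1; simpa using hn1
        have ht0 : t = 0 := abs_nonpos_iff.1 this
        rw [ht0]; simp
      · have hnp : (n : ℝ) ≠ 0 := by exact_mod_cast hpos.ne'
        field_simp
    have h := hiter p q (t / n) hp hq hu n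
    rw [ht] at h
    refine h.trans (mul_le_mul_of_nonneg_right ?_ (hd0 _ _))
    refine (pow_le_pow_left₀ hC30 hC3C n).trans (DGR_pow hC1 hn2)
  · intro p q hp hq
    exact (hpart2 p q hp hq).trans h2C2
  · intro p s t hp
    -- one point
    have key : ∀ (p : P d) (u : ℝ), nrm G p ≤ 3 / 2 → dP Γ χ p (Φ u p) ≤ C * |u| := by
      intro p0 u hp0
      by_cases hu : |u| ≤ 1
      · obtain ⟨γ, hγ⟩ := hK.cover p0.1
        set p : P d := lft γ p0 with hp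
        have e1 : dP Γ χ p0 (Φ u p0) = dP Γ χ p (Φ u p) := by
          rw [hp, heq, hdinv]
        rw [e1]
        have hnp : nrm G p ≤ 3 / 2 := by rw [hp, hnl]; exact hp0
        have hp1 : ‖p.1‖ ≤ mK := hmK _ hγ
        have hL := (hCL G Φ hG hΦ p p 0 u hp1 hnp (by simpa using hc.le) hu (by simp)).2.1
        rw [hΦ.zero, sub_zero] at hL
        have b1 := hconf p u (by linarith) hnp hu
        have b0 := hconf p 0 (by linarith) hnp (by simp)
        rw [hΦ.zero] at b0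
        have hU := hCU p (Φ u p) b0.1 b1.1 b0.2 b1.2
        rw [norm_sub_rev] at hU
        have hCU0 : 0 ≤ CU := by linarith
        calc dP Γ χ p (Φ u p) ≤ CU * ‖Φ u p - p‖ := hU
          _ ≤ CU * (CL * |u|) := mul_le_mul_of_nonneg_left hL hCU0
          _ = CU * CL * |u| := by ring
          _ ≤ C * |u| := mul_le_mul_of_nonneg_right hULC (abs_nonneg _)
      · have h1 := hpart2 p0 (Φ u p0) hp0 (by rw [hnf]; exact hp0)
        have h2 : 1 ≤ |u| := (not_le.1 hu).le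
        calc dP Γ χ p0 (Φ u p0) ≤ 2 * C2 := h1
          _ ≤ C := h2C2
          _ ≤ C * |u| := le_mul_of_one_le_right (by linarith) h2
    have e : Φ t p = Φ (t - s) (Φ s p) := by rw [← hΦ.add]; congr 1; ring
    rw [e, abs_sub_comm]
    exact key (Φ s p) (t - s) (by rw [hnf]; exact hp)

end

end Pool.Agent.VD
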