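import Pool.Agent.helper80.VD.SpecF

set_option autoImplicit false

open scoped ContDiff Topology InnerProductSpace
open MeasureTheory Filter Set

namespace Pool.Agent.VD

noncomputable section

theorem GMP_haar (d : ℕ) : (volume : Measure (P d)).IsAddHaarMeasure := by
  have h : (Measure.prod (volume : Measure (V d)) (volume : Measure (V d))).IsAddHaarMeasure :=
    Measure.prod.instIsAddHaarMeasure _ _
  exact h

theorem GMP_proof (hGLF : GLF_stmt) (hDT1 : CRO.DT1_stmt) : GMP_stmt := by
  intro d Γ _ _ hsm γ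
  obtain ⟨hone, hmul, hsmooth, _, _, _, homg, _⟩ := hGLF d Γ hsm
  have := GMP_haar d
  have hcont : Continuous (lft γ : P d → P d) := (hsmooth γ).continuous
  have hinv : ∀ z : P d, lft γ⁻¹ (lft γ z) = z := fun z => by
    rw [← hmul, inv_mul_cancel, hone]
  have hinv' : ∀ z : P d, lft γ (lft γ⁻¹ z) = z := fun z => by
    rw [← hmul, mul_inv_cancel, hone]
  have hdiff : Differentiable ℝ (lft γ : P d → P d) := (hsmooth γ).differentiable (by simp)
  have hdet : ∀ z : P d, |(fderiv ℝ (lft γ : P d → P d) z).det| = 1 := by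
    intro z
    refine hDT1 d (fderiv ℝ (lft γ : P d → P d) z) fun v w => ?_
    have h := homg γ z v w
    have e : ∀ v w : P d, CRO.symp v w = -omg v w := by
      intro v w
      unfold CRO.symp omg
      rw [real_inner_comm v.1 w.2]
      ring
    rw [e, e, h]
  refine ⟨hcont.measurable, ?_⟩
  ext A hA
  rw [Measure.map_apply hcont.measurable hA]
  have hB : MeasurableSet ((lft γ : P d → P d) ⁻¹' A) := hcont.measurable hA
  have h1 := lintegral_abs_det_fderiv_eq_addHaar_image (volume : Measure (P d)) hB
    (fun z _ => ((hdiff z).hasFDerivAt).hasFDerivWithinAt)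
    (fun x _ y _ hxy => by rw [← hinv x, ← hinv y, hxy])
  have h2 : (lft γ : P d → P d) '' ((lft γ : P d → P d) ⁻¹' A) = A :=
    image_preimage_eq A (fun z => ⟨lft γ⁻¹ z, hinv' z⟩)
  rw [h2] at h1
  rw [← h1]
  simp only [hdet, ENNReal.ofReal_one]
  rw [setLIntegral_const, one_mul]

end

end Pool.Agent.VD
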