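import Pool.Agent.helper84.VD.SpecB5

set_option autoImplicit false

open scoped ContDiff Topology InnerProductSpace ENNReal
open MeasureTheory Filter Set

namespace Pool.Agent.VD

noncomputable section

theorem SPT_proof : SPT_stmt := by
  classical
  intro m ρ s L δ hs hL hsym hrefl hlip
  set L' : ℝ := L + 1 with hL'
  have hL'pos : 0 < L' := by linarith
  set r : ℝ := s / (2 * L') with hr
  have hrpos : 0 < r := by positivity
  obtain ⟨T, _, hTf, hT⟩ := (isCompact_closedBall (0 : W m) ρ).finite_cover_balls hrpos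
  let Pr : Finset (W m) → Prop := fun E =>
    (∀ v ∈ E, ‖v‖ ≤ ρ) ∧ ∀ v ∈ E, ∀ w ∈ E, v ≠ w → s < δ v w
  have hcard : ∀ E, Pr E → E.card ≤ hTf.toFinset.card := by
    intro E hE
    have hch : ∀ v ∈ E, ∃ c ∈ hTf.toFinset, v ∈ Metric.ball c r := by
      intro v hv
      have : v ∈ ⋃ x ∈ T, Metric.ball x r := hT (mem_closedBall_zero_iff.2 (hE.1 v hv))
      obtain ⟨c, hc, hvc⟩ := mem_iUnion₂.1 this
      exact ⟨c, hTf.mem_toFinset.2 hc, hvc⟩
    choose! g hg1 hg2 using hch
    refine Finset.card_le_card_of_injOn g hg1 ?_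
    intro v hv w hw hvw
    by_contra hne
    have h1 := hE.2 v hv w hw hne
    have h2 := hlip v w (hE.1 v hv) (hE.1 w hw)
    have h3 : dist v w < 2 * r := by
      have a1 := Metric.mem_ball.1 (hg2 v hv)
      have a2 := Metric.mem_ball.1 (hg2 w hw)
      rw [← hvw] at a2
      have := dist_triangle_right v w (g v)
      linarith
    have h4 : ‖v - w‖ < 2 * r := by rw [← dist_eq_norm]; exact h3
    have h5 : L * ‖v - w‖ ≤ L' * ‖v - w‖ :=
      mul_le_mul_of_nonneg_right (by linarith) (norm_nonneg _)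
    have h6 : L' * ‖v - w‖ ≤ L' * (2 * r) := mul_le_mul_of_nonneg_left h4.le hL'pos.le
    have h7 : L' * (2 * r) = s := by
      rw [hr]
      field_simp
    linarith
  let N : Set ℕ := {n | ∃ E, Pr E ∧ E.card = n}
  have hN0 : N.Nonempty := ⟨0, ∅, ⟨by simp, by simp⟩, rfl⟩
  have hNb : BddAbove N := ⟨hTf.toFinset.card, by
    rintro n ⟨E, hE, rfl⟩
    exact hcard E hE⟩
  obtain ⟨E, hE, hEc⟩ := Nat.sSup_mem hN0 hNb
  refine ⟨E, hE.1, hE.2, ?_⟩
  intro w hw
  by_contra hcon
  push Not at hcon
  have hwE : w ∉ E := by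
    intro hwE
    have := hcon w hwE
    rw [hrefl] at this
    exact absurd this (not_lt.2 hs.le)
  have hins : Pr (insert w E) := by
    constructor
    · intro v hv
      rcases Finset.mem_insert.1 hv with rfl | hv
      · exact hw
      · exact hE.1 v hv
    · intro v hv u hu hne
      rcases Finset.mem_insert.1 hv with h1 | h1
      · rcases Finset.mem_insert.1 hu with h2 | h2
        · exact absurd (h1.trans h2.symm) hne
        · rw [h1, hsym]
          exact hcon u h2
      · rcases Finset.mem_insert.1 hu with h2 | h2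
        · rw [h2]
          exact hcon v h1
        · exact hE.2 v h1 u h2 hne
  have hmem : (insert w E).card ∈ N := ⟨insert w E, hins, rfl⟩
  have hle := le_csSup hNb hmem
  rw [Finset.card_insert_of_notMem hwE, hEc] at hle
  omega

end

end Pool.Agent.VD
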